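import Pool.Agent.helper16.LW.Spec

set_option autoImplicit false

open Complex MeasureTheory

namespace Pool.Agent.LW

open Pool.Agent.ZD Pool.Agent.helper84.DM Pool.Agent.helper78.ED Pool.Agent.DH

theorem ITG_gs_nonneg (u : ℝ) : 0 ≤ gs u := by
  unfold gs
  positivity

theorem ITG_gs_cont : Continuous gs := by
  unfold gs
  fun_prop

theorem ITG_gs_le (u : ℝ) : gs u ≤ 2 / (1 + u ^ 2) := by
  unfold gs
  have h2 : (1 : ℝ) ≤ Real.sqrt (2 * Real.pi) := by
    rw [Real.one_le_sqrt]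
    have := Real.pi_gt_three
    linarith
  have h3 : Real.exp (-(u ^ 2 / 2)) / Real.sqrt (2 * Real.pi) ≤ Real.exp (-(u ^ 2 / 2)) :=
    div_le_self (Real.exp_pos _).le h2
  refine h3.trans ?_
  rw [Real.exp_neg, inv_eq_one_div, div_le_div_iff₀ (Real.exp_pos _) (by positivity)]
  have h4 := Real.add_one_le_exp (u ^ 2 / 2)
  nlinarith [sq_nonneg u]

theorem ITG_floor (u : ℝ) : 2 / (1 + u ^ 2) ≤ 6 * (1 / (1 + ((⌊u⌋ : ℤ) : ℝ) ^ 2)) := by
  have h1 : ((⌊u⌋ : ℤ) : ℝ) ≤ u := Int.floor_le u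
  have h2 : u < ((⌊u⌋ : ℤ) : ℝ) + 1 := Int.lt_floor_add_one u
  rw [mul_one_div, div_le_div_iff₀ (by positivity) (by positivity)]
  nlinarith [sq_nonneg (u - ((⌊u⌋ : ℤ) : ℝ)), sq_nonneg (2 * u - ((⌊u⌋ : ℤ) : ℝ)), sq_nonneg u]

theorem ITG_summable : Summable fun k : ℤ => 1 / (1 + (k : ℝ) ^ 2) := by
  have h1 : Summable fun k : ℤ => 1 / (k : ℝ) ^ 2 := Real.summable_one_div_int_pow.mpr (by norm_num)
  refine Summable.of_norm_bounded_eventually (g := fun k : ℤ => 1 / (k : ℝ) ^ 2) h1 ?_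
  have h2 : ∀ᶠ k : ℤ in Filter.cofinite, k ≠ 0 := by
    have := (Set.finite_singleton (0 : ℤ)).compl_mem_cofinite
    filter_upwards [this] with k hk
    simpa using hk
  filter_upwards [h2] with k hk
  have hk' : (0 : ℝ) < (k : ℝ) ^ 2 := by
    have : (k : ℝ) ≠ 0 := by exact_mod_cast hk
    positivity
  rw [Real.norm_of_nonneg (by positivity)]
  exact one_div_le_one_div_of_le hk' (by linarith)

theorem ITG_sum (T : ℝ) (W : Finset ℝ) (hW : S1 T W) (x : ℝ) :
    ∑ t ∈ W, gs (x - t) ≤ 6 * ∑' k : ℤ, 1 / (1 + (k : ℝ) ^ 2) := by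
  classical
  have hinj : ∀ t ∈ W, ∀ s ∈ W, ⌊x - t⌋ = ⌊x - s⌋ → t = s := by
    intro t ht s hs hts
    by_contra hne
    have h1 := hW.2 t ht s hs hne
    have h2 : ((⌊x - t⌋ : ℤ) : ℝ) = ((⌊x - s⌋ : ℤ) : ℝ) := by exact_mod_cast hts
    have h3 := Int.floor_le (x - t)
    have h4 := Int.lt_floor_add_one (x - t)
    have h5 := Int.floor_le (x - s)
    have h6 := Int.lt_floor_add_one (x - s)
    have h7 : |t - s| < 1 := by
      rw [abs_lt]
      constructor <;> linarith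
    linarith
  calc ∑ t ∈ W, gs (x - t) ≤ ∑ t ∈ W, 6 * (1 / (1 + ((⌊x - t⌋ : ℤ) : ℝ) ^ 2)) :=
        Finset.sum_le_sum fun t _ => (ITG_gs_le _).trans (ITG_floor _)
    _ = 6 * ∑ t ∈ W, 1 / (1 + ((⌊x - t⌋ : ℤ) : ℝ) ^ 2) := by rw [Finset.mul_sum]
    _ = 6 * ∑ k ∈ W.image (fun t => ⌊x - t⌋), 1 / (1 + (k : ℝ) ^ 2) := by
        rw [Finset.sum_image]
        intro t ht s hs hts
        exact hinj t ht s hs hts
    _ ≤ 6 * ∑' k : ℤ, 1 / (1 + (k : ℝ) ^ 2) := by
        refine mul_le_mul_of_nonneg_left ?_ (by norm_num)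
        exact ITG_summable.sum_le_tsum _ fun k _ => by positivity

theorem ITG_int (H : ℝ) (h : ℝ → ℝ) (hm : Measurable h) (hb : ∀ x, 0 ≤ h x ∧ h x ≤ H) (a b : ℝ) :
    IntervalIntegrable h volume a b := by
  have h1 : IntervalIntegrable (fun _ : ℝ => H) volume a b := intervalIntegrable_const
  refine h1.mono_fun hm.aestronglyMeasurable ?_
  filter_upwards with x
  have h2 := hb x
  rw [Real.norm_of_nonneg h2.1, Real.norm_of_nonneg (h2.1.trans h2.2)]
  exact h2.2

theorem ITG_int2 (H : ℝ) (h : ℝ → ℝ) (hm : Measurable h) (hb : ∀ x, 0 ≤ h x ∧ h x ≤ H) (t a b : ℝ) :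
    IntervalIntegrable (fun x => h x * gs (x - t)) volume a b := by
  refine (ITG_int H h hm hb a b).mul_continuousOn ?_
  exact (ITG_gs_cont.comp (continuous_id.sub continuous_const)).continuousOn

theorem ITG_grid (T S H : ℝ) (h : ℝ → ℝ) (J : ℕ) (hT : 1 ≤ T) (hS : 0 ≤ S) (hm : Measurable h)
    (hb : ∀ x, 0 ≤ h x ∧ h x ≤ H) (hJ : 2 * (T + S + 1) ≤ J) (hw : ∀ j ∈ IJ J, 0 ≤ wj J j) :
    ∫ x in (-S)..(T + S), h x ≤ 2 * ∫ θ in (0 : ℝ)..1, ∑ j ∈ IJ J, wj J j * h ((j : ℝ) + θ) := by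
  set K : ℕ := ⌈T + S⌉₊ with hK
  have hK1 : T + S ≤ K := Nat.le_ceil _
  have hK2 : (K : ℝ) < T + S + 1 := Nat.ceil_lt_add_one (by linarith)
  have hJ0 : (0 : ℝ) < J := by linarith
  have hKJ : (K : ℝ) ≤ J / 2 := by linarith
  have hI := ITG_int H h hm hb
  -- the interval grows
  have h1 : ∫ x in (-S)..(T + S), h x ≤ ∫ x in (-(K : ℝ))..K, h x := by
    refine intervalIntegral.integral_mono_interval (by linarith) (by linarith) hK1 ?_ (hI _ _)
    filter_upwards with x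
    exact (hb x).1
  -- unit intervals
  have h2 : ∫ x in (-(K : ℝ))..K, h x =
      ∑ k ∈ Finset.range (2 * K), ∫ θ in (0 : ℝ)..1, h (((-(K : ℤ) + k : ℤ) : ℝ) + θ) := by
    have h3 := intervalIntegral.sum_integral_adjacent_intervals (f := h) (μ := volume)
      (a := fun k : ℕ => -(K : ℝ) + k) (n := 2 * K) (fun k _ => hI _ _)
    have h4 : (-(K : ℝ) + ((0 : ℕ) : ℝ)) = -(K : ℝ) := by simp
    have h5 : (-(K : ℝ) + ((2 * K : ℕ) : ℝ)) = K := by push_cast; ring
    simp only [h4, h5] at h3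
    rw [← h3]
    refine Finset.sum_congr rfl fun k _ => ?_
    rw [intervalIntegral.integral_comp_add_left]
    congr 1 <;> push_cast <;> ring
  have h6 : ∀ j ∈ IJ J, IntervalIntegrable (fun θ => wj J j * h ((j : ℝ) + θ)) volume 0 1 := by
    intro j _
    have h7 : IntervalIntegrable (fun θ => h ((j : ℝ) + θ)) volume 0 1 :=
      ITG_int H (fun θ => h ((j : ℝ) + θ)) (hm.comp (measurable_const.add measurable_id))
        (fun x => hb _) 0 1
    exact h7.const_mul _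
  rw [intervalIntegral.integral_finset_sum h6]
  have h8 : ∀ j : ℤ, 0 ≤ ∫ θ in (0 : ℝ)..1, h ((j : ℝ) + θ) := fun j =>
    intervalIntegral.integral_nonneg (by norm_num) fun x _ => (hb _).1
  have h9 : ∑ k ∈ Finset.range (2 * K), ∫ θ in (0 : ℝ)..1, h (((-(K : ℤ) + k : ℤ) : ℝ) + θ) ≤
      ∑ j ∈ IJ J, 2 * (wj J j * ∫ θ in (0 : ℝ)..1, h ((j : ℝ) + θ)) := by
    classical
    have hinj : Set.InjOn (fun k : ℕ => (-(K : ℤ) + k : ℤ)) (Finset.range (2 * K)) := by
      intro a _ b _ hab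
      simp only at hab
      omega
    have h10 : ∑ k ∈ Finset.range (2 * K), ∫ θ in (0 : ℝ)..1, h (((-(K : ℤ) + k : ℤ) : ℝ) + θ) =
        ∑ j ∈ (Finset.range (2 * K)).image (fun k : ℕ => (-(K : ℤ) + k : ℤ)),
          ∫ θ in (0 : ℝ)..1, h ((j : ℝ) + θ) := by
      rw [Finset.sum_image hinj]
    rw [h10]
    have hKJ' : 2 * K ≤ J := by
      have : (2 : ℝ) * K ≤ J := by linarith
      exact_mod_cast this
    have hK0 : 1 ≤ K := by
      have : (0 : ℝ) < K := by linarith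
      exact_mod_cast this
    have hsub : (Finset.range (2 * K)).image (fun k : ℕ => (-(K : ℤ) + k : ℤ)) ⊆ IJ J := by
      intro j hj
      rw [Finset.mem_image] at hj
      obtain ⟨k, hk, rfl⟩ := hj
      rw [Finset.mem_range] at hk
      simp only [IJ, Finset.mem_Ioo]
      omega
    calc ∑ j ∈ (Finset.range (2 * K)).image (fun k : ℕ => (-(K : ℤ) + k : ℤ)),
          ∫ θ in (0 : ℝ)..1, h ((j : ℝ) + θ)
        ≤ ∑ j ∈ (Finset.range (2 * K)).image (fun k : ℕ => (-(K : ℤ) + k : ℤ)),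
          2 * (wj J j * ∫ θ in (0 : ℝ)..1, h ((j : ℝ) + θ)) := by
          refine Finset.sum_le_sum fun j hj => ?_
          rw [Finset.mem_image] at hj
          obtain ⟨k, hk, rfl⟩ := hj
          rw [Finset.mem_range] at hk
          have hj1 : |(((-(K : ℤ) + k : ℤ)) : ℝ)| ≤ K := by
            have : |(-(K : ℤ) + k : ℤ)| ≤ K := by
              rw [abs_le]
              constructor <;> omega
            have h' : ((|(-(K : ℤ) + k : ℤ)| : ℤ) : ℝ) ≤ ((K : ℤ) : ℝ) := by exact_mod_cast this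
            simpa [Int.cast_abs] using h'
          have hw2 : 1 / 2 ≤ wj J (-(K : ℤ) + k : ℤ) := by
            unfold wj
            have : |(((-(K : ℤ) + k : ℤ)) : ℝ)| / J ≤ 1 / 2 := by
              rw [div_le_iff₀ hJ0]
              linarith
            linarith
          have h11 := h8 (-(K : ℤ) + k : ℤ)
          nlinarith [mul_le_mul_of_nonneg_right hw2 h11]
      _ ≤ ∑ j ∈ IJ J, 2 * (wj J j * ∫ θ in (0 : ℝ)..1, h ((j : ℝ) + θ)) := by
          refine Finset.sum_le_sum_of_subset_of_nonneg hsub fun j hj _ => ?_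
          have := hw j hj
          have := h8 j
          positivity
  calc ∫ x in (-S)..(T + S), h x ≤ ∫ x in (-(K : ℝ))..K, h x := h1
    _ ≤ ∑ j ∈ IJ J, 2 * (wj J j * ∫ θ in (0 : ℝ)..1, h ((j : ℝ) + θ)) := h2.le.trans h9
    _ = 2 * ∑ j ∈ IJ J, ∫ θ in (0 : ℝ)..1, wj J j * h ((j : ℝ) + θ) := by
        rw [Finset.mul_sum]
        refine Finset.sum_congr rfl fun j _ => ?_
        rw [intervalIntegral.integral_const_mul]

theorem ITG (hFEJ : FEJ_stmt) : ITG_stmt := by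
  have hts : 0 ≤ ∑' k : ℤ, 1 / (1 + (k : ℝ) ^ 2) := tsum_nonneg fun k => by positivity
  set A : ℝ := 6 * ∑' k : ℤ, 1 / (1 + (k : ℝ) ^ 2) with hA
  have hA0 : 0 ≤ A := by positivity
  refine ⟨2 * A + 1, by positivity, ?_⟩
  intro T S H W h J hT hS hW hm hb hJ
  have hgrid := ITG_grid T S H h J hT hS hm hb hJ (fun j hj => (hFEJ.2.1 J j hj).1)
  have hI := ITG_int H h hm hb
  have h1 : ∀ t ∈ W, ∫ s in (-S)..S, h (t + s) * gs s ≤
      ∫ x in (-S)..(T + S), h x * gs (x - t) := by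
    intro t ht
    obtain ⟨ht0, ht1⟩ := hW.1 t ht
    have h2 : ∫ s in (-S)..S, h (t + s) * gs s = ∫ x in (t + -S)..(t + S), h x * gs (x - t) := by
      have h3 := intervalIntegral.integral_comp_add_left (a := -S) (b := S)
        (fun x => h x * gs (x - t)) t
      rw [← h3]
      refine intervalIntegral.integral_congr fun s _ => ?_
      simp
    rw [h2]
    refine intervalIntegral.integral_mono_interval (by linarith) (by linarith) (by linarith) ?_
      (ITG_int2 H h hm hb t _ _)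
    filter_upwards with x
    exact mul_nonneg (hb x).1 (ITG_gs_nonneg _)
  have h4 : ∑ t ∈ W, ∫ s in (-S)..S, h (t + s) * gs s ≤ A * ∫ x in (-S)..(T + S), h x := by
    calc ∑ t ∈ W, ∫ s in (-S)..S, h (t + s) * gs s
        ≤ ∑ t ∈ W, ∫ x in (-S)..(T + S), h x * gs (x - t) := Finset.sum_le_sum h1
      _ = ∫ x in (-S)..(T + S), ∑ t ∈ W, h x * gs (x - t) := by
          rw [intervalIntegral.integral_finset_sum]
          intro t _
          exact ITG_int2 H h hm hb t _ _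
      _ ≤ ∫ x in (-S)..(T + S), A * h x := by
          refine intervalIntegral.integral_mono_on (by linarith) ?_ ((hI _ _).const_mul _) ?_
          · have h5 := IntervalIntegrable.sum W (f := fun t x => h x * gs (x - t))
              (fun t _ => ITG_int2 H h hm hb t (-S) (T + S))
            have h6 : (fun x => ∑ t ∈ W, h x * gs (x - t)) =
                ∑ t ∈ W, fun x => h x * gs (x - t) := by
              ext x
              simp
            rw [h6]
            exact h5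
          · intro x _
            rw [← Finset.mul_sum, mul_comm]
            exact mul_le_mul_of_nonneg_right (ITG_sum T W hW x) (hb x).1
      _ = A * ∫ x in (-S)..(T + S), h x := intervalIntegral.integral_const_mul _ _
  have h7 : 0 ≤ ∫ x in (-S)..(T + S), h x :=
    intervalIntegral.integral_nonneg (by linarith) fun x _ => (hb x).1
  have h8 : 0 ≤ ∫ θ in (0 : ℝ)..1, ∑ j ∈ IJ J, wj J j * h ((j : ℝ) + θ) := by linarith
  calc ∑ t ∈ W, ∫ s in (-S)..S, h (t + s) * gs s ≤ A * ∫ x in (-S)..(T + S), h x := h4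
    _ ≤ A * (2 * ∫ θ in (0 : ℝ)..1, ∑ j ∈ IJ J, wj J j * h ((j : ℝ) + θ)) :=
        mul_le_mul_of_nonneg_left hgrid hA0
    _ ≤ (2 * A + 1) * ∫ θ in (0 : ℝ)..1, ∑ j ∈ IJ J, wj J j * h ((j : ℝ) + θ) := by linarith

end Pool.Agent.LW
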